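import Mathlib

/-!
# Free `p`-convex Banach lattices, by their universal property
-/

set_option autoImplicit false

open Set

namespace Pool.Agent.R444.FBL

universe u v

/-- The closed unit ball of `ℓ_{p'}^n`, the dual of `ℓ_p^n`. -/
def DualBall (p : ℝ) (n : ℕ) : Set (Fin n → ℝ) :=
  {a | ∀ b : Fin n → ℝ, ∑ i, |b i| ^ p ≤ 1 → ∑ i, a i * b i ≤ 1}

/-- `X` is `p`-convex with constant `1`: for all `x_1, ..., x_n` the element
`(∑ |x_i|^p)^{1/p} = sup {∑ a_i x_i : a in the unit ball of ℓ_{p'}^n}` has norm at most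
`(∑ ‖x_i‖^p)^{1/p}`. -/
def PConvexOne (p : ℝ) (X : Type u) [NormedAddCommGroup X] [NormedSpace ℝ X] [Lattice X] : Prop :=
  ∀ (n : ℕ) (x : Fin n → X), ∃ y : X,
    IsLUB {v | ∃ a ∈ DualBall p n, v = ∑ i, a i • x i} y ∧ ‖y‖ ≤ (∑ i, ‖x i‖ ^ p) ^ (1 / p)

/-- Lattice homomorphisms. -/
def IsLatHom {X : Type u} {Y : Type v} [NormedAddCommGroup X] [NormedSpace ℝ X] [Lattice X]
    [NormedAddCommGroup Y] [NormedSpace ℝ Y] [Lattice Y] (S : X →L[ℝ] Y) : Prop :=
  (∀ a b, S (a ⊔ b) = S a ⊔ S b) ∧ ∀ a b, S (a ⊓ b) = S a ⊓ S b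

/-- `(L, δ)` is the free `p`-convex Banach lattice over `E`: `L` is `p`-convex with constant `1` and
every bounded linear `T : E → X` into a `p`-convex Banach lattice `X` with constant `1` has a unique
extension to a lattice homomorphism `L → X`, and this extension has the norm of `T`. -/
structure IsFBL (p : ℝ) (E : Type u) [NormedAddCommGroup E] [NormedSpace ℝ E]
    (L : Type u) [NormedAddCommGroup L] [NormedSpace ℝ L] [Lattice L] (δ : E →ₗᵢ[ℝ] L) : Prop where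
  pconvex : PConvexOne p L
  existsUnique_hom : ∀ (X : Type u) [NormedAddCommGroup X] [NormedSpace ℝ X] [Lattice X]
    [HasSolidNorm X] [IsOrderedAddMonoid X] [PosSMulMono ℝ X] [CompleteSpace X],
    PConvexOne p X → ∀ T : E →L[ℝ] X, ∃! S : L →L[ℝ] X, IsLatHom S ∧ ∀ x, S (δ x) = T x
  norm_hom : ∀ (X : Type u) [NormedAddCommGroup X] [NormedSpace ℝ X] [Lattice X]
    [HasSolidNorm X] [IsOrderedAddMonoid X] [PosSMulMono ℝ X] [CompleteSpace X],
    PConvexOne p X → ∀ (T : E →L[ℝ] X) (S : L →L[ℝ] X), IsLatHom S → (∀ x, S (δ x) = T x) →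
      ‖S‖ = ‖T‖

/-! ### `ℓ_p^ι` -/

section lp

variable {ι : Type u} {q : ENNReal}

noncomputable instance instLatticePiLp : Lattice (PiLp q (fun _ : ι => ℝ)) where
  le f g := ∀ i, f i ≤ g i
  le_refl f i := le_rfl
  le_trans f g h h1 h2 i := (h1 i).trans (h2 i)
  le_antisymm f g h1 h2 := by
    ext i
    exact le_antisymm (h1 i) (h2 i)
  sup f g := WithLp.toLp q (fun i => f i ⊔ g i)
  inf f g := WithLp.toLp q (fun i => f i ⊓ g i)
  le_sup_left f g i := le_sup_left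
  le_sup_right f g i := le_sup_right
  sup_le f g h h1 h2 i := sup_le (h1 i) (h2 i)
  inf_le_left f g i := inf_le_left
  inf_le_right f g i := inf_le_right
  le_inf f g h h1 h2 i := le_inf (h1 i) (h2 i)

lemma piLp_le {f g : PiLp q (fun _ : ι => ℝ)} : f ≤ g ↔ ∀ i, f i ≤ g i := Iff.rfl

lemma piLp_sup (f g : PiLp q (fun _ : ι => ℝ)) (i : ι) : (f ⊔ g) i = f i ⊔ g i := rfl

lemma piLp_inf (f g : PiLp q (fun _ : ι => ℝ)) (i : ι) : (f ⊓ g) i = f i ⊓ g i := rfl

lemma piLp_abs (f : PiLp q (fun _ : ι => ℝ)) (i : ι) : |f| i = |f i| := rfl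

instance instOAM : IsOrderedAddMonoid (PiLp q (fun _ : ι => ℝ)) where
  add_le_add_left f g h k i := by
    have := h i
    simpa using this

instance instPSM : PosSMulMono ℝ (PiLp q (fun _ : ι => ℝ)) where
  smul_le_smul_of_nonneg_left c hc f g h i := by
    have := h i
    simpa using mul_le_mul_of_nonneg_left this hc

variable [Fintype ι]

lemma piLp_norm {p : ℝ} (hp : 1 ≤ p) [Fact (1 ≤ ENNReal.ofReal p)]
    (f : PiLp (ENNReal.ofReal p) (fun _ : ι => ℝ)) : ‖f‖ = (∑ i, |f i| ^ p) ^ (1 / p) := by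
  have h : (ENNReal.ofReal p).toReal = p := ENNReal.toReal_ofReal (by linarith)
  rw [PiLp.norm_eq_sum (by rw [h]; linarith), h]
  rfl

lemma piLp_solid {p : ℝ} (hp : 1 ≤ p) [Fact (1 ≤ ENNReal.ofReal p)] :
    HasSolidNorm (PiLp (ENNReal.ofReal p) (fun _ : ι => ℝ)) where
  solid := by
    intro f g h
    rw [piLp_norm hp, piLp_norm hp]
    apply Real.rpow_le_rpow
    · exact Finset.sum_nonneg fun i _ => Real.rpow_nonneg (abs_nonneg _) _
    · apply Finset.sum_le_sum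
      intro i _
      exact Real.rpow_le_rpow (abs_nonneg _) (h i) (by linarith)
    · positivity

lemma dualBall_le {p : ℝ} (hp : 1 ≤ p) {n : ℕ} {a : Fin n → ℝ} (ha : a ∈ DualBall p n)
    (c : Fin n → ℝ) : ∑ i, a i * c i ≤ (∑ i, |c i| ^ p) ^ (1 / p) := by
  have hp0 : 0 < p := by linarith
  have hS : 0 ≤ ∑ i, |c i| ^ p := Finset.sum_nonneg fun i _ => Real.rpow_nonneg (abs_nonneg _) _
  rcases hS.eq_or_lt with h | h
  · have h0 : ∀ i, c i = 0 := by
      intro i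
      have := (Finset.sum_eq_zero_iff_of_nonneg
        (fun i _ => Real.rpow_nonneg (abs_nonneg (c i)) p)).1 h.symm i (Finset.mem_univ i)
      rw [Real.rpow_eq_zero (abs_nonneg _) hp0.ne'] at this
      exact abs_eq_zero.1 this
    rw [Finset.sum_eq_zero (fun i _ => by rw [h0 i, mul_zero])]
    exact Real.rpow_nonneg hS _
  · set N := (∑ i, |c i| ^ p) ^ (1 / p) with hN
    have hNpos : 0 < N := Real.rpow_pos_of_pos h _
    have hNp : N ^ p = ∑ i, |c i| ^ p := by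
      rw [hN, ← Real.rpow_mul hS, one_div, inv_mul_cancel₀ hp0.ne', Real.rpow_one]
    have h1 := ha (fun i => c i / N) (by
      have : ∀ i, |c i / N| ^ p = |c i| ^ p / N ^ p := by
        intro i
        rw [abs_div, abs_of_pos hNpos, Real.div_rpow (abs_nonneg _) hNpos.le]
      rw [Finset.sum_congr rfl fun i _ => this i, ← Finset.sum_div, hNp, div_self h.ne'])
    have h2 : ∑ i, a i * (c i / N) = (∑ i, a i * c i) / N := by
      rw [Finset.sum_div]
      exact Finset.sum_congr rfl fun i _ => by ring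
    rw [h2, div_le_one hNpos] at h1
    exact h1

lemma dualBall_attain {p : ℝ} (hp : 1 ≤ p) {n : ℕ} (c : Fin n → ℝ) :
    ∃ a ∈ DualBall p n, ∑ i, a i * c i = (∑ i, |c i| ^ p) ^ (1 / p) := by
  have hp0 : 0 < p := by linarith
  haveI : Fact (1 ≤ ENNReal.ofReal p) := ⟨by simpa using ENNReal.ofReal_le_ofReal hp⟩
  obtain ⟨g, hg1, hg2⟩ := exists_dual_vector'' ℝ (WithLp.toLp (ENNReal.ofReal p) c :
    PiLp (ENNReal.ofReal p) (fun _ : Fin n => ℝ))
  set G : (Fin n → ℝ) →ₗ[ℝ] ℝ := g.toLinearMap ∘ₗ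
    (WithLp.linearEquiv (ENNReal.ofReal p) ℝ (Fin n → ℝ)).symm.toLinearMap with hG
  have hGa : ∀ b : Fin n → ℝ, G b = g (WithLp.toLp (ENNReal.ofReal p) b) := fun b => rfl
  have hGs : ∀ b : Fin n → ℝ, G b = ∑ i, G (Pi.single i 1) * b i := by
    intro b
    rw [LinearMap.pi_apply_eq_sum_univ G b]
    refine Finset.sum_congr rfl fun i _ => ?_
    rw [smul_eq_mul, mul_comm]
    congr 2
    funext j
    by_cases h : i = j
    · subst h; simp
    · simp [h, Pi.single_apply, Ne.symm h, eq_comm]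
  refine ⟨fun i => G (Pi.single i 1), ?_, ?_⟩
  · intro b hb
    rw [← hGs, hGa]
    have h1 : ‖(WithLp.toLp (ENNReal.ofReal p) b : PiLp (ENNReal.ofReal p) (fun _ : Fin n => ℝ))‖ ≤ 1 := by
      rw [piLp_norm hp]
      apply Real.rpow_le_one _ hb (by positivity)
      exact Finset.sum_nonneg fun i _ => Real.rpow_nonneg (abs_nonneg _) _
    calc g (WithLp.toLp (ENNReal.ofReal p) b) ≤ ‖g (WithLp.toLp (ENNReal.ofReal p) b)‖ := le_abs_self _
      _ ≤ ‖g‖ * ‖(WithLp.toLp (ENNReal.ofReal p) b : PiLp (ENNReal.ofReal p) (fun _ : Fin n => ℝ))‖ :=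
          g.le_opNorm _
      _ ≤ 1 * 1 := by gcongr
      _ = 1 := one_mul 1
  · show ∑ i, G (Pi.single i 1) * c i = _
    rw [← hGs, hGa, hg2, piLp_norm hp]
    rfl

lemma piLp_pconvex {p : ℝ} (hp : 1 ≤ p) [Fact (1 ≤ ENNReal.ofReal p)] :
    PConvexOne p (PiLp (ENNReal.ofReal p) (fun _ : ι => ℝ)) := by
  have hp0 : 0 < p := by linarith
  intro n x
  refine ⟨WithLp.toLp _ (fun j => (∑ i, |x i j| ^ p) ^ (1 / p)), ⟨?_, ?_⟩, ?_⟩
  · rintro v ⟨a, ha, rfl⟩ j
    have := dualBall_le hp ha (fun i => x i j)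
    simpa using this
  · intro z hz j
    obtain ⟨a, ha, hae⟩ := dualBall_attain hp (fun i => x i j)
    have h1 : (∑ i, a i • x i) ≤ z := hz ⟨a, ha, rfl⟩
    have h2 := h1 j
    show (∑ i, |x i j| ^ p) ^ (1 / p) ≤ z j
    rw [← hae]
    simpa using h2
  · rw [piLp_norm hp]
    apply Real.rpow_le_rpow
    · exact Finset.sum_nonneg fun i _ => Real.rpow_nonneg (abs_nonneg _) _
    swap
    · positivity
    have h1 : ∀ i, ‖x i‖ ^ p = ∑ j, |x i j| ^ p := by
      intro i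
      have hS : 0 ≤ ∑ j, |x i j| ^ p := Finset.sum_nonneg fun j _ => Real.rpow_nonneg (abs_nonneg _) _
      rw [piLp_norm hp, ← Real.rpow_mul hS, one_div, inv_mul_cancel₀ hp0.ne', Real.rpow_one]
    have h2 : ∀ j, |(∑ i, |x i j| ^ p) ^ (1 / p)| ^ p = ∑ i, |x i j| ^ p := by
      intro j
      have hS : 0 ≤ ∑ i, |x i j| ^ p := Finset.sum_nonneg fun i _ => Real.rpow_nonneg (abs_nonneg _) _
      rw [abs_of_nonneg (Real.rpow_nonneg hS _), ← Real.rpow_mul hS, one_div,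
        inv_mul_cancel₀ hp0.ne', Real.rpow_one]
    rw [Finset.sum_congr rfl fun i _ => h1 i, Finset.sum_comm]
    exact le_of_eq (Finset.sum_congr rfl fun j _ => h2 j)

end lp

end Pool.Agent.R444.FBL
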