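import Pool.Agent.R444.FBL.Defs

/-!
# Closed sublattices containing `δ(E)` are everything; consequences
-/

set_option autoImplicit false

open Set

namespace Pool.Agent.R444.FBL

universe u v

section

variable {L : Type u} [NormedAddCommGroup L] [NormedSpace ℝ L] [Lattice L] [HasSolidNorm L]
  [IsOrderedAddMonoid L] [PosSMulMono ℝ L]

lemma dualBall_abs_le {p : ℝ} (hp : 1 ≤ p) {n : ℕ} {a : Fin n → ℝ} (ha : a ∈ DualBall p n)
    (i : Fin n) : |a i| ≤ 1 := by
  have hp0 : p ≠ 0 := by linarith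
  have key : ∀ s : ℝ, |s| = 1 → a i * s ≤ 1 := by
    intro s hs
    have h1 := ha (Pi.single i s) (by
      rw [Finset.sum_eq_single i]
      · simp [hs]
      · intro j _ hj
        simp [Pi.single_apply, hj, Real.zero_rpow hp0]
      · simp)
    rw [Finset.sum_eq_single i] at h1
    · simpa using h1
    · intro j _ hj
      simp [Pi.single_apply, hj]
    · simp
  have h1 := key 1 (by simp)
  have h2 := key (-1) (by simp)
  rw [abs_le]
  constructor <;> linarith

lemma smul_le_smul_abs (c : ℝ) (x : L) : c • x ≤ |c| • |x| := by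
  rcases le_or_gt 0 c with h | h
  · rw [abs_of_nonneg h]
    exact smul_le_smul_of_nonneg_left (le_abs_self x) h
  · rw [abs_of_neg h]
    have : c • x = (-c) • (-x) := by rw [smul_neg, neg_smul, neg_neg]
    rw [this]
    exact smul_le_smul_of_nonneg_left (neg_le_abs x) (by linarith)

lemma mem_of_closed {p : ℝ} (hp : 1 ≤ p) (M : Submodule ℝ L) (hM : IsClosed (M : Set L))
    (hsup : ∀ a ∈ M, ∀ b ∈ M, a ⊔ b ∈ M) {n : ℕ} (x : Fin n → L) (hx : ∀ i, x i ∈ M) {y : L}
    (hy : IsLUB {v | ∃ a ∈ DualBall p n, v = ∑ i, a i • x i} y) : y ∈ M := by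
  rw [← SetLike.mem_coe, ← hM.closure_eq, Metric.mem_closure_iff]
  intro ε hε
  set C := ‖∑ i, |x i|‖ with hC
  have hC0 : 0 ≤ C := norm_nonneg _
  set η := ε / (2 * (C + 1)) with hη
  have hη0 : 0 < η := by positivity
  have hsub : DualBall p n ⊆ Metric.closedBall 0 1 := by
    intro a ha
    rw [mem_closedBall_zero_iff, pi_norm_le_iff_of_nonneg zero_le_one]
    intro i
    exact dualBall_abs_le hp ha i
  have htb : TotallyBounded (DualBall p n) :=
    ((isCompact_closedBall (0 : Fin n → ℝ) 1).totallyBounded).subset hsub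
  obtain ⟨t, hts, htf, hcov⟩ := Metric.finite_approx_of_totallyBounded htb η hη0
  have h0 : (0 : Fin n → ℝ) ∈ DualBall p n := by
    intro b _
    simp
  have hne : htf.toFinset.Nonempty := by
    have := hcov h0
    simp only [mem_iUnion] at this
    obtain ⟨y, hy, -⟩ := this
    exact ⟨y, htf.mem_toFinset.2 hy⟩
  refine ⟨htf.toFinset.sup' hne (fun a => ∑ i, a i • x i), ?_, ?_⟩
  · apply Finset.sup'_mem (M : Set L) hsup
    intro a _
    exact M.sum_mem fun i _ => M.smul_mem _ (hx i)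
  · set s := htf.toFinset.sup' hne (fun a => ∑ i, a i • x i) with hs
    have h1 : s ≤ y := by
      rw [hs]
      apply Finset.sup'_le
      intro a ha
      exact hy.1 ⟨a, hts (htf.mem_toFinset.1 ha), rfl⟩
    have h2 : y ≤ s + η • ∑ i, |x i| := by
      apply hy.2
      rintro v ⟨a, ha, rfl⟩
      have := hcov ha
      simp only [mem_iUnion] at this
      obtain ⟨a', ha', hd⟩ := this
      have h3 : ∑ i, a' i • x i ≤ s := by
        rw [hs]
        exact Finset.le_sup' (fun a => ∑ i, a i • x i) (htf.mem_toFinset.2 ha')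
      have h4 : ∑ i, a i • x i = ∑ i, a' i • x i + ∑ i, (a i - a' i) • x i := by
        rw [← Finset.sum_add_distrib]
        refine Finset.sum_congr rfl fun i _ => ?_
        rw [sub_smul]
        abel
      rw [h4, Finset.smul_sum]
      refine add_le_add h3 (Finset.sum_le_sum fun i _ => ?_)
      refine (smul_le_smul_abs _ _).trans ?_
      have h5 : |a i - a' i| ≤ η := by
        have := dist_le_pi_dist a a' i
        rw [Real.dist_eq] at this
        exact this.trans (Metric.mem_ball.1 hd).le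
      have h6 : 0 ≤ (η - |a i - a' i|) • |x i| := smul_nonneg (by linarith) (abs_nonneg _)
      rw [sub_smul] at h6
      exact sub_nonneg.1 h6
    have h3 : |y - s| ≤ abs (η • ∑ i, |x i|) := by
      rw [abs_of_nonneg (sub_nonneg.2 h1)]
      refine le_trans ?_ (le_abs_self _)
      rw [sub_le_iff_le_add, add_comm]
      exact h2
    rw [dist_eq_norm]
    calc ‖y - s‖ ≤ ‖η • ∑ i, |x i|‖ := norm_le_norm_of_abs_le_abs h3
      _ = η * C := by rw [norm_smul, Real.norm_of_nonneg hη0.le]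
      _ < ε := by
          rw [hη, div_mul_eq_mul_div, div_lt_iff₀ (by positivity)]
          nlinarith

lemma inf_mem_of_sup_mem (M : Submodule ℝ L) (hsup : ∀ a ∈ M, ∀ b ∈ M, a ⊔ b ∈ M) {a b : L}
    (ha : a ∈ M) (hb : b ∈ M) : a ⊓ b ∈ M := by
  have : a ⊓ b = a + b - a ⊔ b := by
    rw [eq_sub_iff_add_eq, inf_add_sup]
  rw [this]
  exact M.sub_mem (M.add_mem ha hb) (hsup a ha b hb)

/-- The lattice structure of a sublattice. -/
@[reducible] def subLattice (M : Submodule ℝ L) (hsup : ∀ a ∈ M, ∀ b ∈ M, a ⊔ b ∈ M) : Lattice M :=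
  Subtype.lattice (fun _ _ hx hy => hsup _ hx _ hy) (fun _ _ hx hy => inf_mem_of_sup_mem M hsup hx hy)

variable [CompleteSpace L]

lemma closed_eq_top {p : ℝ} (hp : 1 ≤ p) {E : Type u} [NormedAddCommGroup E] [NormedSpace ℝ E]
    {δ : E →ₗᵢ[ℝ] L} (h : IsFBL p E L δ) (M : Submodule ℝ L) (hM : IsClosed (M : Set L))
    (hsup : ∀ a ∈ M, ∀ b ∈ M, a ⊔ b ∈ M) (hδ : ∀ x, δ x ∈ M) : M = ⊤ := by
  letI : Lattice M := subLattice M hsup
  have hcs : ∀ a b : M, ((a ⊔ b : M) : L) = (a : L) ⊔ b := fun a b => rfl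
  have hci : ∀ a b : M, ((a ⊓ b : M) : L) = (a : L) ⊓ b := fun a b => rfl
  have hle : ∀ a b : M, a ≤ b ↔ (a : L) ≤ b := fun a b => Iff.rfl
  have habs : ∀ a : M, ((|a| : M) : L) = |(a : L)| := fun a => rfl
  haveI : HasSolidNorm M := ⟨fun a b hab => by
    have h1 : |(a : L)| ≤ |(b : L)| := by
      rw [← habs, ← habs]
      exact hab
    show ‖(a : L)‖ ≤ ‖(b : L)‖
    exact norm_le_norm_of_abs_le_abs h1⟩
  have hadd : ∀ a b : M, a ≤ b → ∀ c : M, a + c ≤ b + c := by
    intro a b hab c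
    have h1 : (a : L) ≤ b := hab
    show (a : L) + c ≤ b + c
    exact add_le_add_left h1 _
  haveI : IsOrderedAddMonoid M := { add_le_add_left := hadd }
  haveI : PosSMulMono ℝ M := ⟨fun c hc a b hab => by
    show c • (a : L) ≤ c • (b : L)
    exact smul_le_smul_of_nonneg_left hab hc⟩
  haveI : CompleteSpace M := hM.completeSpace_coe
  have hpc : PConvexOne p M := by
    intro n x
    obtain ⟨y, hy, hyn⟩ := h.pconvex n (fun i => (x i : L))
    have hyM : y ∈ M := mem_of_closed hp M hM hsup _ (fun i => (x i).2) hy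
    refine ⟨⟨y, hyM⟩, ⟨?_, ?_⟩, ?_⟩
    · rintro v ⟨a, ha, rfl⟩
      have := hy.1 ⟨a, ha, rfl⟩
      show ((∑ i, a i • x i : M) : L) ≤ y
      simpa using this
    · intro z hz
      show y ≤ (z : L)
      apply hy.2
      rintro v ⟨a, ha, rfl⟩
      have h1 : (∑ i, a i • x i : M) ≤ z := hz ⟨a, ha, rfl⟩
      have h2 : ((∑ i, a i • x i : M) : L) ≤ z := h1
      simpa using h2
    · exact hyn
  let T : E →L[ℝ] M := (δ.toContinuousLinearMap).codRestrict M hδ
  obtain ⟨S, ⟨⟨hS1, hS1'⟩, hS2⟩, -⟩ := h.existsUnique_hom M hpc T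
  have huniq := (h.existsUnique_hom L h.pconvex δ.toContinuousLinearMap).unique
    (y₁ := M.subtypeL.comp S) (y₂ := ContinuousLinearMap.id ℝ L)
    ⟨⟨fun a b => by
      show ((S (a ⊔ b) : M) : L) = _
      rw [hS1]
      rfl, fun a b => by
      show ((S (a ⊓ b) : M) : L) = _
      rw [hS1']
      rfl⟩, fun x => by
      show ((S (δ x) : M) : L) = _
      rw [hS2]
      rfl⟩
    ⟨⟨fun a b => rfl, fun a b => rfl⟩, fun x => rfl⟩
  rw [eq_top_iff]
  intro z _
  have : M.subtypeL.comp S z = ContinuousLinearMap.id ℝ L z := by rw [huniq]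
  have h2 : ((S z : M) : L) = z := this
  rw [← h2]
  exact (S z).2

lemma hom_unique {p : ℝ} (hp : 1 ≤ p) {E : Type u} [NormedAddCommGroup E] [NormedSpace ℝ E]
    {δ : E →ₗᵢ[ℝ] L} (h : IsFBL p E L δ) {Y : Type v} [NormedAddCommGroup Y] [NormedSpace ℝ Y]
    [Lattice Y] {S S' : L →L[ℝ] Y} (hS : IsLatHom S) (hS' : IsLatHom S')
    (hδ : ∀ x, S (δ x) = S' (δ x)) : S = S' := by
  have h1 : LinearMap.ker (S - S' : L →L[ℝ] Y).toLinearMap = ⊤ := by
    apply closed_eq_top hp h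
    · exact (S - S').isClosed_ker
    · intro a ha b hb
      rw [LinearMap.mem_ker] at ha hb ⊢
      have ha' : S a = S' a := by
        have : S a - S' a = 0 := ha
        exact sub_eq_zero.1 this
      have hb' : S b = S' b := by
        have : S b - S' b = 0 := hb
        exact sub_eq_zero.1 this
      show S (a ⊔ b) - S' (a ⊔ b) = 0
      rw [hS.1, hS'.1, ha', hb', sub_self]
    · intro x
      rw [LinearMap.mem_ker]
      show S (δ x) - S' (δ x) = 0
      rw [hδ, sub_self]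
  ext z
  have : z ∈ LinearMap.ker (S - S' : L →L[ℝ] Y).toLinearMap := by rw [h1]; trivial
  rw [LinearMap.mem_ker] at this
  have h2 : S z - S' z = 0 := this
  exact sub_eq_zero.1 h2

/-- `(∑ |x_i^(φ)|^p)^{1/p} ≤ ‖φ‖ sup_x (∑ |x_i^*(x)|^p)^{1/p}`. -/
lemma sum_le {p : ℝ} (hp : 1 ≤ p) {E : Type u} [NormedAddCommGroup E] [NormedSpace ℝ E]
    {δ : E →ₗᵢ[ℝ] L} (h : IsFBL p E L δ) {ι : Type u} [Fintype ι] (f : ι → (E →L[ℝ] ℝ)) {K : ℝ}
    (hK : 0 ≤ K) (hf : ∀ x : E, ‖x‖ = 1 → ∑ i, |f i x| ^ p ≤ K) :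
    ∃ ψ : ι → (L →L[ℝ] ℝ), (∀ i, IsLatHom (ψ i)) ∧ (∀ i x, ψ i (δ x) = f i x) ∧
      ∀ φ : L, ∑ i, |ψ i φ| ^ p ≤ K * ‖φ‖ ^ p := by
  have hp0 : 0 < p := by linarith
  haveI : Fact (1 ≤ ENNReal.ofReal p) := ⟨by simpa using ENNReal.ofReal_le_ofReal hp⟩
  haveI := piLp_solid (ι := ι) hp
  let X := PiLp (ENNReal.ofReal p) (fun _ : ι => ℝ)
  let T : E →L[ℝ] X :=
    (PiLp.continuousLinearEquiv (ENNReal.ofReal p) ℝ (fun _ : ι => ℝ)).symm.toContinuousLinearMap.comp
      (ContinuousLinearMap.pi fun i : ι => f i)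
  have hT : ∀ x i, T x i = f i x := fun x i => rfl
  have hTn : ‖T‖ ≤ K ^ (1 / p) := by
    apply ContinuousLinearMap.opNorm_le_of_unit_norm (Real.rpow_nonneg hK _)
    intro x hx
    rw [piLp_norm hp]
    apply Real.rpow_le_rpow
    · exact Finset.sum_nonneg fun i _ => Real.rpow_nonneg (abs_nonneg _) _
    · exact hf x hx
    · positivity
  obtain ⟨S, ⟨hS1, hS2⟩, -⟩ := h.existsUnique_hom X (piLp_pconvex hp) T
  have hSn : ‖S‖ = ‖T‖ := h.norm_hom X (piLp_pconvex hp) T S hS1 hS2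
  refine ⟨fun i => (PiLp.proj (ENNReal.ofReal p) (fun _ : ι => ℝ) i).comp S,
    ?_, ?_, ?_⟩
  · intro i
    refine ⟨fun a b => ?_, fun a b => ?_⟩
    · show (S (a ⊔ b)) i = _
      rw [hS1.1]
      rfl
    · show (S (a ⊓ b)) i = _
      rw [hS1.2]
      rfl
  · intro i x
    show (S (δ x)) i = _
    rw [hS2, hT]
  · intro φ
    have h1 : ‖S φ‖ ≤ K ^ (1 / p) * ‖φ‖ := by
      refine (S.le_opNorm φ).trans ?_
      rw [hSn]
      gcongr
    have h2 : ‖S φ‖ ^ p = ∑ i : ι, |S φ i| ^ p := by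
      have hS : 0 ≤ ∑ j, |S φ j| ^ p := Finset.sum_nonneg fun j _ => Real.rpow_nonneg (abs_nonneg _) _
      rw [piLp_norm hp, ← Real.rpow_mul hS, one_div, inv_mul_cancel₀ hp0.ne', Real.rpow_one]
    have h3 : ∑ i : ι, |(PiLp.proj (ENNReal.ofReal p) (fun _ : ι => ℝ) i).comp S φ| ^ p
        = ∑ i : ι, |S φ i| ^ p := rfl
    rw [h3, ← h2]
    calc ‖S φ‖ ^ p ≤ (K ^ (1 / p) * ‖φ‖) ^ p := Real.rpow_le_rpow (norm_nonneg _) h1 hp0.le
      _ = K * ‖φ‖ ^ p := by
          rw [Real.mul_rpow (Real.rpow_nonneg hK _) (norm_nonneg _), ← Real.rpow_mul hK, one_div,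
            inv_mul_cancel₀ hp0.ne', Real.rpow_one]

end

end Pool.Agent.R444.FBL
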