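import Mathlib

/-!
# Mazur–Orlicz, an inequality of Taylor type, functionals weak*-continuous at zero on the ball
-/

set_option autoImplicit false

open Set

namespace Pool.Agent.R444.FBL

universe u v

/-- A form of the Mazur–Orlicz theorem with the norm as the dominating functional. -/
lemma mazur_orlicz {V : Type u} [NormedAddCommGroup V] [NormedSpace ℝ V] {W : Type v}
    [AddCommGroup W] [Module ℝ W] (K : Set W) (h0 : (0 : W) ∈ K)
    (hadd : ∀ a ∈ K, ∀ b ∈ K, a + b ∈ K) (hsmul : ∀ c : ℝ, 0 < c → ∀ a ∈ K, c • a ∈ K)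
    (A : W →ₗ[ℝ] V) (B : W →ₗ[ℝ] ℝ) (hAB : ∀ l ∈ K, B l ≤ ‖A l‖) :
    ∃ F : V →ₗ[ℝ] ℝ, (∀ v, F v ≤ ‖v‖) ∧ ∀ l ∈ K, B l ≤ F (A l) := by
  haveI : Nonempty K := ⟨⟨0, h0⟩⟩
  set N : V → ℝ := fun v => ⨅ l : K, (‖v + A l‖ - B l) with hN
  have hbdd : ∀ v, BddBelow (range fun l : K => ‖v + A l‖ - B l) := by
    intro v
    refine ⟨-‖v‖, ?_⟩
    rintro _ ⟨l, rfl⟩
    have h1 := hAB l l.2
    have h2 : ‖A l‖ ≤ ‖v + A l‖ + ‖v‖ := by
      calc ‖A l‖ = ‖(v + A l) - v‖ := by congr 1; abel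
        _ ≤ _ := norm_sub_le _ _
    show -‖v‖ ≤ ‖v + A l‖ - B l
    linarith
  have hle : ∀ v, ∀ l ∈ K, N v ≤ ‖v + A l‖ - B l := fun v l hl => ciInf_le (hbdd v) (⟨l, hl⟩ : K)
  have hhom1 : ∀ c : ℝ, 0 < c → ∀ v, N (c • v) ≤ c * N v := by
    intro c hc v
    rw [← div_le_iff₀' hc]
    apply le_ciInf
    intro l
    rw [div_le_iff₀' hc]
    have := hle (c • v) (c • (l : W)) (hsmul c hc l l.2)
    rw [map_smul, map_smul, ← smul_add, norm_smul, Real.norm_of_nonneg hc.le, smul_eq_mul] at this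
    linarith
  have hhom : ∀ c : ℝ, 0 < c → ∀ v, N (c • v) = c * N v := by
    intro c hc v
    apply le_antisymm (hhom1 c hc v)
    have h1 := hhom1 c⁻¹ (inv_pos.2 hc) (c • v)
    rw [smul_smul, inv_mul_cancel₀ hc.ne', one_smul, ← div_eq_inv_mul, le_div_iff₀' hc] at h1
    exact h1
  have hsub : ∀ v w, N (v + w) ≤ N v + N w := by
    intro v w
    apply le_ciInf_add_ciInf
    intro l1 l2
    have := hle (v + w) (l1 + l2) (hadd _ l1.2 _ l2.2)
    rw [map_add, map_add] at this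
    have h2 : ‖v + w + (A l1 + A l2)‖ ≤ ‖v + A l1‖ + ‖w + A l2‖ := by
      calc ‖v + w + (A l1 + A l2)‖ = ‖(v + A l1) + (w + A l2)‖ := by congr 1; abel
        _ ≤ _ := norm_add_le _ _
    linarith
  have hN0 : 0 ≤ N 0 := by
    apply le_ciInf
    intro l
    have := hAB l l.2
    rw [zero_add]
    linarith
  obtain ⟨F, -, hF⟩ := exists_extension_of_le_sublinear (⊥ : V →ₗ.[ℝ] ℝ) N hhom hsub (by
    rintro ⟨x, hx⟩
    have hx0 : x = 0 := (Submodule.mem_bot ℝ).1 hx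
    subst hx0
    have : (⊥ : V →ₗ.[ℝ] ℝ) ⟨0, hx⟩ = 0 := by
      exact LinearPMap.map_zero _
    rw [this]
    exact hN0)
  refine ⟨F, fun v => ?_, fun l hl => ?_⟩
  · have h1 := hle v 0 h0
    rw [map_zero, map_zero, add_zero, sub_zero] at h1
    exact (hF v).trans h1
  · have h1 := hle (-A l) l hl
    rw [neg_add_cancel, norm_zero, zero_sub] at h1
    have h2 := (hF (-A l)).trans h1
    rw [map_neg] at h2
    linarith

/-- Tangent inequality for `|x|^p` at `a > 0`. -/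
lemma tangent_pos {p : ℝ} (hp : 1 ≤ p) {a : ℝ} (ha : 0 < a) (h : ℝ) :
    a ^ p + p * a ^ (p - 1) * h ≤ |a + h| ^ p := by
  have hap : a ^ p = a ^ (p - 1) * a := by
    rw [← Real.rpow_add_one ha.ne']
    ring_nf
  have hpos : 0 < a ^ (p - 1) := Real.rpow_pos_of_pos ha _
  rcases le_or_gt 0 (a + h) with h0 | h0
  · rw [abs_of_nonneg h0]
    have h1 : -1 ≤ h / a := by
      rw [le_div_iff₀ ha]
      linarith
    have h2 := one_add_mul_self_le_rpow_one_add h1 hp
    have h3 : 1 + h / a = (a + h) / a := by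
      field_simp
    rw [h3, Real.div_rpow h0 ha.le, le_div_iff₀ (Real.rpow_pos_of_pos ha _)] at h2
    calc a ^ p + p * a ^ (p - 1) * h = (1 + p * (h / a)) * a ^ p := by
          rw [hap]
          field_simp
      _ ≤ _ := h2
  · have h1 : a ^ p + p * a ^ (p - 1) * h ≤ 0 := by
      rw [hap]
      have : a ^ (p - 1) * a + p * a ^ (p - 1) * h = a ^ (p - 1) * (a + p * h) := by ring
      rw [this]
      apply mul_nonpos_of_nonneg_of_nonpos hpos.le
      nlinarith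
    exact h1.trans (Real.rpow_nonneg (abs_nonneg _) _)

/-- `(1 + v)^p ≤ 1 + p v + p² 2^p v²` for `|v| ≤ 1/2`. -/
lemma taylor_one {p : ℝ} (hp : 1 ≤ p) {v : ℝ} (hv : |v| ≤ 1 / 2) :
    (1 + v) ^ p ≤ 1 + p * v + p ^ 2 * 2 ^ p * v ^ 2 := by
  have hv' := abs_le.1 hv
  have hpos : 0 < 1 + v := by linarith
  have h1 : (1 + v) ^ p + p * (1 + v) ^ (p - 1) * (-v) ≤ 1 := by
    have := tangent_pos hp hpos (-v)
    rw [show 1 + v + -v = 1 by ring, abs_one, Real.one_rpow] at this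
    exact this
  have h2p : 1 ≤ (2 : ℝ) ^ p := Real.one_le_rpow (by norm_num) (by linarith)
  have h2 : v * ((1 + v) ^ (p - 1) - 1) ≤ p * 2 ^ p * v ^ 2 := by
    rcases le_or_gt 0 v with h0 | h0
    · have h3 : (1 + v) ^ (p - 1) ≤ (1 + v) ^ p :=
        Real.rpow_le_rpow_of_exponent_le (by linarith) (by linarith)
      have h4 : (1 + v) ^ (p - 1) ≤ 2 ^ p := by
        refine h3.trans (Real.rpow_le_rpow hpos.le (by linarith) (by linarith))
      have h5 : (1 + v) ^ p - 1 ≤ p * (1 + v) ^ (p - 1) * v := by linarith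
      have h6 : (1 + v) ^ (p - 1) - 1 ≤ p * 2 ^ p * v := by
        have : p * (1 + v) ^ (p - 1) * v ≤ p * 2 ^ p * v := by gcongr
        linarith
      calc v * ((1 + v) ^ (p - 1) - 1) ≤ v * (p * 2 ^ p * v) := by gcongr
        _ = p * 2 ^ p * v ^ 2 := by ring
    · have h3 : (1 + v) ^ p ≤ (1 + v) ^ (p - 1) :=
        Real.rpow_le_rpow_of_exponent_ge hpos (by linarith) (by linarith)
      have h4 : 1 + p * v ≤ (1 + v) ^ p := one_add_mul_self_le_rpow_one_add (by linarith) hp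
      have h5 : p * v ≤ (1 + v) ^ (p - 1) - 1 := by linarith
      have h6 : v * ((1 + v) ^ (p - 1) - 1) ≤ v * (p * v) := by
        apply mul_le_mul_of_nonpos_left h5 h0.le
      have h7 : v * (p * v) = p * 1 * v ^ 2 := by ring
      have h8 : p * 1 * v ^ 2 ≤ p * 2 ^ p * v ^ 2 := by gcongr
      linarith
  have h3 : p * (v * ((1 + v) ^ (p - 1) - 1)) ≤ p * (p * 2 ^ p * v ^ 2) :=
    mul_le_mul_of_nonneg_left h2 (by linarith)
  have h4 : p * (p * 2 ^ p * v ^ 2) = p ^ 2 * 2 ^ p * v ^ 2 := by ring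
  have h5 : p * (v * ((1 + v) ^ (p - 1) - 1)) = p * (1 + v) ^ (p - 1) * v - p * v := by ring
  linarith

lemma taylor_aux {p : ℝ} (hp : 1 ≤ p) {a : ℝ} (ha1 : 1 / 2 ≤ a) (ha2 : a ≤ 1) :
    (∀ h : ℝ, |a| ^ p + p * a ^ (p - 1) * h ≤ |a + h| ^ p) ∧
    ∀ b t : ℝ, |b| ≤ 1 → 0 ≤ t → t ≤ 1 / 4 →
      |a + t * b| ^ p ≤ |a| ^ p + p * a ^ (p - 1) * (t * b) + 4 * (p ^ 2 * 2 ^ p) * t ^ 2 := by
  have ha : 0 < a := by linarith
  have hap : a ^ p = a ^ (p - 1) * a := by
    rw [← Real.rpow_add_one ha.ne']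
    ring_nf
  rw [abs_of_pos ha]
  refine ⟨fun h => tangent_pos hp ha h, fun b t hb ht0 ht1 => ?_⟩
  have hb' := abs_le.1 hb
  have htb : |t * b| ≤ 1 / 4 := by
    rw [abs_mul, abs_of_nonneg ht0]
    nlinarith [abs_nonneg b]
  have htb' := abs_le.1 htb
  have hv : |t * b / a| ≤ 1 / 2 := by
    rw [abs_div, abs_of_pos ha, div_le_iff₀ ha]
    linarith
  have h1 := taylor_one hp hv
  have hnn : 0 ≤ a + t * b := by linarith
  have h2 : 1 + t * b / a = (a + t * b) / a := by field_simp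
  rw [h2, Real.div_rpow hnn ha.le, div_le_iff₀ (Real.rpow_pos_of_pos ha _)] at h1
  rw [abs_of_nonneg hnn]
  refine h1.trans ?_
  have h3 : (1 + p * (t * b / a) + p ^ 2 * 2 ^ p * (t * b / a) ^ 2) * a ^ p
      = a ^ p + p * a ^ (p - 1) * (t * b) + p ^ 2 * 2 ^ p * ((t * b / a) ^ 2 * a ^ p) := by
    have : (1 + p * (t * b / a) + p ^ 2 * 2 ^ p * (t * b / a) ^ 2) * a ^ p
      = a ^ p + p * (t * b / a) * a ^ p + p ^ 2 * 2 ^ p * ((t * b / a) ^ 2 * a ^ p) := by ring
    rw [this]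
    congr 2
    rw [hap]
    field_simp
  rw [h3]
  have h4 : (t * b / a) ^ 2 * a ^ p ≤ 4 * t ^ 2 := by
    have h5 : a ^ p ≤ 1 := Real.rpow_le_one ha.le ha2 (by linarith)
    have h6 : (t * b / a) ^ 2 ≤ 4 * t ^ 2 := by
      rw [div_pow, div_le_iff₀ (by positivity)]
      have h7 : b ^ 2 ≤ 1 := by nlinarith
      have h8 : 1 / 4 ≤ a ^ 2 := by nlinarith
      nlinarith [sq_nonneg t, mul_nonneg (sq_nonneg t) (sub_nonneg.2 h7)]
    calc (t * b / a) ^ 2 * a ^ p ≤ (t * b / a) ^ 2 * 1 :=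
          mul_le_mul_of_nonneg_left h5 (sq_nonneg _)
      _ ≤ 4 * t ^ 2 := by rw [mul_one]; exact h6
  have h5 : 0 ≤ p ^ 2 * 2 ^ p := by positivity
  nlinarith

/-- First and second order inequalities for `|x|^p` at `1/2 ≤ |a| ≤ 1`. -/
lemma taylor {p : ℝ} (hp : 1 ≤ p) {a : ℝ} (ha1 : 1 / 2 ≤ |a|) (ha2 : |a| ≤ 1) :
    ∃ d : ℝ, (∀ h : ℝ, |a| ^ p + d * h ≤ |a + h| ^ p) ∧
    ∀ b t : ℝ, |b| ≤ 1 → 0 ≤ t → t ≤ 1 / 4 →
      |a + t * b| ^ p ≤ |a| ^ p + d * (t * b) + 4 * (p ^ 2 * 2 ^ p) * t ^ 2 := by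
  rcases le_or_gt 0 a with h0 | h0
  · rw [abs_of_nonneg h0] at ha1 ha2
    obtain ⟨h1, h2⟩ := taylor_aux hp ha1 ha2
    exact ⟨_, h1, h2⟩
  · rw [abs_of_neg h0] at ha1 ha2
    obtain ⟨h1, h2⟩ := taylor_aux hp ha1 ha2
    refine ⟨-(p * (-a) ^ (p - 1)), fun h => ?_, fun b t hb ht0 ht1 => ?_⟩
    · have := h1 (-h)
      rw [abs_neg, show -a + -h = -(a + h) by ring, abs_neg] at this
      linarith
    · have := h2 (-b) t (by rwa [abs_neg]) ht0 ht1
      rw [abs_neg, show -a + t * -b = -(a + t * b) by ring, abs_neg] at this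
      linarith

/-- A functional on `E^*`, bounded by the norm and weak*-continuous at zero on the unit ball, is
the evaluation at a point of the unit ball of `E`. -/
lemma repr_of_cont {E : Type u} [NormedAddCommGroup E] [NormedSpace ℝ E] [CompleteSpace E]
    (F : (E →L[ℝ] ℝ) →ₗ[ℝ] ℝ) (hF : ∀ z, F z ≤ ‖z‖)
    (hc : ∀ ε > 0, ∃ (Y : Finset E) (η : ℝ), 0 < η ∧ ∀ z : E →L[ℝ] ℝ, ‖z‖ ≤ 1 →
      (∀ y ∈ Y, |z y| ≤ η) → |F z| ≤ ε) : ∃ x0 : E, ‖x0‖ ≤ 1 ∧ ∀ z, F z = z x0 := by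
  classical
  have hFa : ∀ z, |F z| ≤ ‖z‖ := by
    intro z
    rw [abs_le]
    have h1 := hF (-z)
    rw [map_neg, norm_neg] at h1
    exact ⟨by linarith, hF z⟩
  have key : ∀ ε > 0, ∃ x : E, ∀ z : E →L[ℝ] ℝ, |F z - z x| ≤ ε * ‖z‖ := by
    intro ε hε
    obtain ⟨Y, η, hη, hY⟩ := hc ε hε
    let J : E →ₗ[ℝ] ((E →L[ℝ] ℝ) →ₗ[ℝ] ℝ) :=
      { toFun := fun x => { toFun := fun z => z x, map_add' := fun a b => rfl, map_smul' := fun c a => rfl }
        map_add' := fun x y => by ext z; exact map_add z x y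
        map_smul' := fun c x => by ext z; exact map_smul z c x }
    have hJ : ∀ x z, J x z = z x := fun x z => rfl
    let W : Submodule ℝ (E →L[ℝ] ℝ) := ⨅ y : Y, LinearMap.ker (J (y : E))
    have hW : ∀ z : E →L[ℝ] ℝ, z ∈ W → ∀ y ∈ Y, z y = 0 := by
      intro z hz y hy
      have := (Submodule.mem_iInf _).1 hz ⟨y, hy⟩
      exact this
    have hFW : ∀ z ∈ W, |F z| ≤ ε * ‖z‖ := by
      intro z hz
      rcases eq_or_ne z 0 with h0 | h0
      · subst h0
        simp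
      · have hn : 0 < ‖z‖ := norm_pos_iff.2 h0
        have h1 := hY (‖z‖⁻¹ • z) (by rw [norm_smul, norm_inv, norm_norm, inv_mul_cancel₀ hn.ne'])
          (fun y hy => by
            have : (‖z‖⁻¹ • z) y = ‖z‖⁻¹ * z y := rfl
            rw [this, hW z hz y hy, mul_zero, abs_zero]
            exact hη.le)
        rw [map_smul, smul_eq_mul, abs_mul, abs_inv, abs_norm, ← div_eq_inv_mul,
          div_le_iff₀ hn] at h1
        exact h1
    let f : StrongDual ℝ W := LinearMap.mkContinuous (F.domRestrict W) ε (fun z : W => by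
      rw [Real.norm_eq_abs]
      exact hFW (z : E →L[ℝ] ℝ) z.property)
    obtain ⟨g, hg1, hg2⟩ := exists_extension_norm_eq W f
    have hker : (⨅ y : Y, LinearMap.ker (J (y : E))) ≤ LinearMap.ker (F - g.toLinearMap) := by
      intro z hz
      rw [LinearMap.mem_ker]
      have h1 : g z = F z := hg1 ⟨z, hz⟩
      show F z - g z = 0
      rw [h1, sub_self]
    have hspan := mem_span_of_iInf_ker_le_ker hker
    have hrange : (range fun y : Y => J (y : E)) ⊆ (LinearMap.range J : Set _) := by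
      rintro _ ⟨y, rfl⟩
      exact ⟨y, rfl⟩
    obtain ⟨x, hx⟩ := (Submodule.span_le.2 hrange) hspan
    refine ⟨x, fun z => ?_⟩
    have h1 : F z - g z = z x := by
      have : J x z = (F - g.toLinearMap) z := by rw [hx]
      rw [hJ] at this
      exact this.symm
    have h2 : F z - z x = g z := by linarith
    rw [h2, ← Real.norm_eq_abs]
    refine (g.le_opNorm z).trans ?_
    rw [hg2]
    refine mul_le_mul_of_nonneg_right ?_ (norm_nonneg _)
    exact LinearMap.mkContinuous_norm_le _ hε.le _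
  choose! x hx using key
  let e : ℕ → ℝ := fun n => 1 / ((n : ℝ) + 1)
  have he : ∀ n, 0 < e n := fun n => by positivity
  have hdist : ∀ m n, ‖x (e m) - x (e n)‖ ≤ e m + e n := by
    intro m n
    apply NormedSpace.norm_le_dual_bound ℝ _ (by have := he m; have := he n; linarith)
    intro z
    have h1 := hx (e m) (he m) z
    have h2 := hx (e n) (he n) z
    rw [map_sub, Real.norm_eq_abs]
    calc |z (x (e m)) - z (x (e n))| = |(F z - z (x (e n))) - (F z - z (x (e m)))| := by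
          congr 1; ring
      _ ≤ |F z - z (x (e n))| + |F z - z (x (e m))| := abs_sub _ _
      _ ≤ e n * ‖z‖ + e m * ‖z‖ := add_le_add h2 h1
      _ = (e m + e n) * ‖z‖ := by ring
  have het : Filter.Tendsto e Filter.atTop (nhds 0) := tendsto_one_div_add_atTop_nhds_zero_nat
  have hcau : CauchySeq fun n => x (e n) := by
    apply cauchySeq_of_le_tendsto_0' (fun n => 2 * e n)
    · intro n m hnm
      rw [dist_eq_norm]
      refine (hdist n m).trans ?_
      have : e m ≤ e n := by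
        apply one_div_le_one_div_of_le (by positivity)
        have : (n : ℝ) ≤ m := by exact_mod_cast hnm
        linarith
      linarith
    · simpa using het.const_mul 2
  obtain ⟨x0, hx0⟩ := cauchySeq_tendsto_of_complete hcau
  have hFx : ∀ z : E →L[ℝ] ℝ, F z = z x0 := by
    intro z
    have h1 : Filter.Tendsto (fun n => z (x (e n))) Filter.atTop (nhds (z x0)) :=
      (z.continuous.tendsto x0).comp hx0
    have h2 : Filter.Tendsto (fun n => z (x (e n))) Filter.atTop (nhds (F z)) := by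
      rw [tendsto_iff_norm_sub_tendsto_zero]
      apply squeeze_zero (fun n => norm_nonneg _) (g := fun n => e n * ‖z‖)
      · intro n
        rw [Real.norm_eq_abs, abs_sub_comm]
        exact hx (e n) (he n) z
      · simpa using het.mul_const ‖z‖
    exact tendsto_nhds_unique h2 h1
  refine ⟨x0, ?_, hFx⟩
  have := NormedSpace.norm_le_dual_bound ℝ x0 zero_le_one (fun z => by
    rw [one_mul, Real.norm_eq_abs, ← hFx]
    exact hFa z)
  exact this

end Pool.Agent.R444.FBL
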