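import Pool.Agent.R444.FBL.Dense
import Pool.Agent.R444.FBL.Tools

/-!
# Norm attainment of the lattice extensions
-/

set_option autoImplicit false

open Set

namespace Pool.Agent.R444.FBL

universe u

variable {L : Type u} [NormedAddCommGroup L] [NormedSpace ℝ L] [Lattice L] [HasSolidNorm L]
  [IsOrderedAddMonoid L] [PosSMulMono ℝ L] [CompleteSpace L] {E : Type u} [NormedAddCommGroup E]
  [NormedSpace ℝ E] {δ : E →ₗᵢ[ℝ] L} {p : ℝ}

lemma sum_le' (hp : 1 ≤ p) (h : IsFBL p E L δ) {ι : Type u} [Fintype ι] (f : ι → (E →L[ℝ] ℝ))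
    {K : ℝ} (hK : 0 ≤ K) (hf : ∀ x : E, ‖x‖ = 1 → ∑ i, |f i x| ^ p ≤ K) (ψ : ι → (L →L[ℝ] ℝ))
    (hψ : ∀ i, IsLatHom (ψ i)) (hψ2 : ∀ i x, ψ i (δ x) = f i x) (φ : L) :
    ∑ i, |ψ i φ| ^ p ≤ K * ‖φ‖ ^ p := by
  obtain ⟨ψ', h1, h2, h3⟩ := sum_le hp h f hK hf
  have : ψ = ψ' := by
    funext i
    exact hom_unique hp h (hψ i) (h1 i) (fun x => by rw [hψ2, h2])
  rw [this]
  exact h3 φ

lemma exists_hom (hp : 1 ≤ p) (h : IsFBL p E L δ) (f : E →L[ℝ] ℝ) :
    ∃ ψ : L →L[ℝ] ℝ, IsLatHom ψ ∧ (∀ x, ψ (δ x) = f x) ∧ ‖ψ‖ = ‖f‖ := by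
  have hp0 : 0 < p := by linarith
  obtain ⟨ψ, h1, h2, h3⟩ := sum_le hp h (fun _ : PUnit.{u+1} => f) (K := ‖f‖ ^ p) (by positivity) (by
    intro x hx
    simp only [Finset.univ_unique, Finset.sum_singleton]
    apply Real.rpow_le_rpow (abs_nonneg _) _ hp0.le
    have := f.le_opNorm x
    rw [hx, mul_one] at this
    exact this)
  refine ⟨ψ PUnit.unit, h1 _, h2 _, le_antisymm ?_ ?_⟩
  · apply (ψ PUnit.unit).opNorm_le_bound (norm_nonneg _)
    intro φ
    have := h3 φ
    simp only [Finset.univ_unique, Finset.sum_singleton] at this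
    rw [← Real.mul_rpow (norm_nonneg _) (norm_nonneg _)] at this
    exact (Real.rpow_le_rpow_iff (abs_nonneg _) (by positivity) hp0).1 this
  · apply f.opNorm_le_bound (norm_nonneg _)
    intro x
    rw [← h2 PUnit.unit]
    refine ((ψ PUnit.unit).le_opNorm _).trans ?_
    rw [δ.norm_map]

lemma isLatHom_smul {ψ : L →L[ℝ] ℝ} (hψ : IsLatHom ψ) {c : ℝ} (hc : 0 ≤ c) :
    IsLatHom (c • ψ) := by
  refine ⟨fun a b => ?_, fun a b => ?_⟩
  · show c * ψ (a ⊔ b) = c * ψ a ⊔ c * ψ b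
    rw [hψ.1]
    exact mul_max_of_nonneg _ _ hc
  · show c * ψ (a ⊓ b) = c * ψ a ⊓ c * ψ b
    rw [hψ.2]
    exact mul_min_of_nonneg _ _ hc

lemma cont (hp : 1 ≤ p) (h : IsFBL p E L δ) (H : (E →L[ℝ] ℝ) → (L →L[ℝ] ℝ))
    (H1 : ∀ f, IsLatHom (H f)) (H2 : ∀ f x, H f (δ x) = f x) (H3 : ∀ f, ‖H f‖ = ‖f‖)
    (f0 : E →L[ℝ] ℝ) (φ : L) : ∀ ε > 0, ∃ (Y : Finset E) (η : ℝ), 0 < η ∧
      ∀ z : E →L[ℝ] ℝ, ‖z‖ ≤ 1 → (∀ y ∈ Y, |z y| ≤ η) → |H (f0 + z) φ - H f0 φ| ≤ ε := by
  classical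
  let G : Submodule ℝ L :=
    { carrier := {φ | ∀ ε > 0, ∃ (Y : Finset E) (η : ℝ), 0 < η ∧
        ∀ z : E →L[ℝ] ℝ, ‖z‖ ≤ 1 → (∀ y ∈ Y, |z y| ≤ η) → |H (f0 + z) φ - H f0 φ| ≤ ε}
      add_mem' := by
        intro a b ha hb ε hε
        obtain ⟨Y1, η1, hη1, hY1⟩ := ha (ε / 2) (by linarith)
        obtain ⟨Y2, η2, hη2, hY2⟩ := hb (ε / 2) (by linarith)
        refine ⟨Y1 ∪ Y2, min η1 η2, lt_min hη1 hη2, fun z hz hzY => ?_⟩
        have h1 := hY1 z hz fun y hy =>
          (hzY y (Finset.mem_union_left _ hy)).trans (min_le_left _ _)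
        have h2 := hY2 z hz fun y hy =>
          (hzY y (Finset.mem_union_right _ hy)).trans (min_le_right _ _)
        rw [map_add, map_add]
        calc |H (f0 + z) a + H (f0 + z) b - (H f0 a + H f0 b)|
            = |(H (f0 + z) a - H f0 a) + (H (f0 + z) b - H f0 b)| := by congr 1; ring
          _ ≤ _ := abs_add_le _ _
          _ ≤ ε / 2 + ε / 2 := add_le_add h1 h2
          _ = ε := by ring
      zero_mem' := by
        intro ε hε
        refine ⟨∅, 1, one_pos, fun z _ _ => ?_⟩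
        simp [hε.le]
      smul_mem' := by
        intro c a ha ε hε
        obtain ⟨Y1, η1, hη1, hY1⟩ := ha (ε / (|c| + 1)) (by positivity)
        refine ⟨Y1, η1, hη1, fun z hz hzY => ?_⟩
        have h1 := hY1 z hz hzY
        rw [map_smul, map_smul, smul_eq_mul, smul_eq_mul, ← mul_sub, abs_mul]
        rw [le_div_iff₀ (by positivity)] at h1
        nlinarith [abs_nonneg c, abs_nonneg (H (f0 + z) a - H f0 a)] }
  have hGm : ∀ φ, φ ∈ G ↔ ∀ ε > 0, ∃ (Y : Finset E) (η : ℝ), 0 < η ∧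
      ∀ z : E →L[ℝ] ℝ, ‖z‖ ≤ 1 → (∀ y ∈ Y, |z y| ≤ η) → |H (f0 + z) φ - H f0 φ| ≤ ε :=
    fun φ => Iff.rfl
  have htop : G = ⊤ := by
    apply closed_eq_top hp h G
    · rw [← closure_subset_iff_isClosed]
      intro φ hφ
      rw [SetLike.mem_coe, hGm]
      intro ε hε
      set Cc := 2 * ‖f0‖ + 1 with hCc
      have hC0 : 0 < Cc := by positivity
      obtain ⟨φ', hφ', hd⟩ := Metric.mem_closure_iff.1 hφ (ε / (2 * Cc)) (by positivity)
      obtain ⟨Y1, η1, hη1, hY1⟩ := (hGm φ').1 hφ' (ε / 2) (by linarith)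
      refine ⟨Y1, η1, hη1, fun z hz hzY => ?_⟩
      have h1 := hY1 z hz hzY
      have h2 : ∀ f, |H f φ - H f φ'| ≤ ‖f‖ * ‖φ - φ'‖ := by
        intro f
        rw [← map_sub, ← H3 f]
        exact (H f).le_opNorm _
      have h3 := h2 (f0 + z)
      have h4 := h2 f0
      have h5 : ‖f0 + z‖ ≤ ‖f0‖ + 1 := (norm_add_le _ _).trans (by linarith)
      rw [dist_eq_norm, lt_div_iff₀ (by positivity)] at hd
      have h6 : (‖f0 + z‖ + ‖f0‖) * ‖φ - φ'‖ ≤ Cc * ‖φ - φ'‖ := by
        apply mul_le_mul_of_nonneg_right _ (norm_nonneg _)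
        rw [hCc]
        linarith
      calc |H (f0 + z) φ - H f0 φ| = |(H (f0 + z) φ - H (f0 + z) φ') + (H (f0 + z) φ' - H f0 φ')
            + -(H f0 φ - H f0 φ')| := by congr 1; ring
        _ ≤ |(H (f0 + z) φ - H (f0 + z) φ') + (H (f0 + z) φ' - H f0 φ')| + |-(H f0 φ - H f0 φ')| :=
            abs_add_le _ _
        _ ≤ |H (f0 + z) φ - H (f0 + z) φ'| + |H (f0 + z) φ' - H f0 φ'| + |H f0 φ - H f0 φ'| := by
            rw [abs_neg]
            gcongr
            exact abs_add_le _ _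
        _ ≤ ε := by nlinarith
    · intro a ha b hb
      rw [hGm] at ha hb ⊢
      intro ε hε
      obtain ⟨Y1, η1, hη1, hY1⟩ := ha ε hε
      obtain ⟨Y2, η2, hη2, hY2⟩ := hb ε hε
      refine ⟨Y1 ∪ Y2, min η1 η2, lt_min hη1 hη2, fun z hz hzY => ?_⟩
      have h1 := hY1 z hz fun y hy =>
        (hzY y (Finset.mem_union_left _ hy)).trans (min_le_left _ _)
      have h2 := hY2 z hz fun y hy =>
        (hzY y (Finset.mem_union_right _ hy)).trans (min_le_right _ _)
      rw [(H1 _).1, (H1 _).1]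
      exact (abs_max_sub_max_le_max _ _ _ _).trans (max_le h1 h2)
    · intro x
      rw [hGm]
      intro ε hε
      refine ⟨{x}, ε, hε, fun z _ hzY => ?_⟩
      rw [H2, H2]
      have h1 := hzY x (Finset.mem_singleton_self x)
      have h2 : (f0 + z) x - f0 x = z x := by
        show f0 x + z x - f0 x = z x
        ring
      rw [h2]
      exact h1
  have : φ ∈ G := by rw [htop]; trivial
  exact this

/-- The constant in the second order inequality. -/
noncomputable def CC (p : ℝ) : ℝ := 4 * (p ^ 2 * 2 ^ p)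

lemma CC_nonneg : 0 ≤ CC p := by unfold CC; positivity

lemma main_ineq (hp : 1 ≤ p) (h : IsFBL p E L δ) (H : (E →L[ℝ] ℝ) → (L →L[ℝ] ℝ))
    (H1 : ∀ f, IsLatHom (H f)) (H2 : ∀ f x, H f (δ x) = f x)
    {f0 : E →L[ℝ] ℝ} (hf0 : ‖f0‖ = 1) {φ : L} (hφ : ‖φ‖ ≤ 1) (hφ1 : H f0 φ = 1)
    {κ : Type u} [Fintype κ] (l t : κ → ℝ) (z : κ → (E →L[ℝ] ℝ)) (hl : ∀ k, 0 ≤ l k)
    (ht0 : ∀ k, 0 < t k) (ht1 : ∀ k, t k ≤ 1 / 4) (hz : ∀ k, ‖z k‖ ≤ 1) :
    ∑ k, l k * ((|H (f0 + t k • z k) φ| ^ p - 1 - CC p * t k ^ 2) / (p * t k))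
      ≤ ‖∑ k, l k • z k‖ := by
  have hp0 : 0 < p := by linarith
  have hC := CC_nonneg (p := p)
  set Z := ∑ k, l k • z k with hZ
  set Λ := ∑ k, l k / t k with hΛ
  set Θ := ∑ k, l k * t k with hΘ
  set B := ∑ k, l k * ((|H (f0 + t k • z k) φ| ^ p - 1 - CC p * t k ^ 2) / (p * t k)) with hB
  have hΛ0 : 0 ≤ Λ := Finset.sum_nonneg fun k _ => div_nonneg (hl k) (ht0 k).le
  have hΘ0 : 0 ≤ Θ := Finset.sum_nonneg fun k _ => mul_nonneg (hl k) (ht0 k).le
  have hZ0 : 0 ≤ ‖Z‖ := norm_nonneg _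
  have habsp : ∀ (w x : ℝ), 0 ≤ w → |w ^ (1 / p) * x| ^ p = w * |x| ^ p := by
    intro w x hw
    rw [abs_mul, abs_of_nonneg (Real.rpow_nonneg hw _),
      Real.mul_rpow (Real.rpow_nonneg hw _) (abs_nonneg _), ← Real.rpow_mul hw, one_div,
      inv_mul_cancel₀ hp0.ne', Real.rpow_one]
  have key : ∀ s : ℝ, 0 < s → s * Λ ≤ 1 → 1 + s * p * B ≤ (1 + s * ‖Z‖) ^ p := by
    intro s hs hsΛ
    have hw0 : 0 ≤ 1 - s * Λ := by linarith
    have hwk : ∀ k, 0 ≤ s * (l k / t k) := fun k => mul_nonneg hs.le (div_nonneg (hl k) (ht0 k).le)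
    have hone : 1 ≤ (1 + s * ‖Z‖) ^ p := Real.one_le_rpow (by nlinarith) hp0.le
    have hsum := sum_le' hp h (ι := Option κ)
      (fun o => Option.elim o ((1 - s * Λ) ^ (1 / p) • f0)
        (fun k => (s * (l k / t k)) ^ (1 / p) • (f0 + t k • z k)))
      (K := (1 + s * ‖Z‖) ^ p + CC p * s * Θ) (by positivity)
      (by
        intro x hx
        rw [Fintype.sum_option]
        have e0 : |(Option.elim none ((1 - s * Λ) ^ (1 / p) • f0)
            (fun k => (s * (l k / t k)) ^ (1 / p) • (f0 + t k • z k)) : E →L[ℝ] ℝ) x| ^ p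
            = (1 - s * Λ) * |f0 x| ^ p := by
          show |(1 - s * Λ) ^ (1 / p) * f0 x| ^ p = _
          exact habsp _ _ hw0
        have e1 : ∀ k, |(Option.elim (some k) ((1 - s * Λ) ^ (1 / p) • f0)
            (fun k => (s * (l k / t k)) ^ (1 / p) • (f0 + t k • z k)) : E →L[ℝ] ℝ) x| ^ p
            = (s * (l k / t k)) * |f0 x + t k * z k x| ^ p := by
          intro k
          show |(s * (l k / t k)) ^ (1 / p) * (f0 x + t k * z k x)| ^ p = _
          exact habsp _ _ (hwk k)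
        rw [e0, Finset.sum_congr rfl fun k _ => e1 k]
        have ha : |f0 x| ≤ 1 := by
          have := f0.le_opNorm x
          rw [hf0, hx, one_mul] at this
          exact this
        have hb : ∀ k, |z k x| ≤ 1 := by
          intro k
          have := (z k).le_opNorm x
          rw [hx, mul_one] at this
          exact this.trans (hz k)
        have hsL : ∑ k, s * (l k / t k) = s * Λ := by rw [hΛ, Finset.mul_sum]
        rcases lt_or_ge |f0 x| (1 / 2) with h2 | h2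
        · have h3 : (1 - s * Λ) * |f0 x| ^ p ≤ (1 - s * Λ) * 1 := by
            apply mul_le_mul_of_nonneg_left _ hw0
            exact Real.rpow_le_one (abs_nonneg _) ha hp0.le
          have h4 : ∑ k, (s * (l k / t k)) * |f0 x + t k * z k x| ^ p ≤ ∑ k, (s * (l k / t k)) := by
            apply Finset.sum_le_sum
            intro k _
            have h5 : |f0 x + t k * z k x| ≤ 1 := by
              refine (abs_add_le _ _).trans ?_
              rw [abs_mul, abs_of_pos (ht0 k)]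
              have := mul_le_mul (ht1 k) (hb k) (abs_nonneg _) (by norm_num)
              linarith
            have h6 : |f0 x + t k * z k x| ^ p ≤ 1 := Real.rpow_le_one (abs_nonneg _) h5 hp0.le
            calc (s * (l k / t k)) * |f0 x + t k * z k x| ^ p ≤ (s * (l k / t k)) * 1 :=
                  mul_le_mul_of_nonneg_left h6 (hwk k)
              _ = _ := mul_one _
          have h5 : 0 ≤ CC p * s * Θ := by positivity
          rw [hsL] at h4
          linarith
        · obtain ⟨d, hd1, hd2⟩ := taylor hp h2 ha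
          have h4 : ∑ k, (s * (l k / t k)) * |f0 x + t k * z k x| ^ p
              ≤ ∑ k, ((s * (l k / t k)) * |f0 x| ^ p + s * d * (l k * z k x)
                + CC p * s * (l k * t k)) := by
            apply Finset.sum_le_sum
            intro k _
            have h5 := hd2 (z k x) (t k) (hb k) (ht0 k).le (ht1 k)
            have h6 := mul_le_mul_of_nonneg_left h5 (hwk k)
            refine h6.trans (le_of_eq ?_)
            have h7 := (ht0 k).ne'
            unfold CC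
            field_simp
          rw [Finset.sum_add_distrib, Finset.sum_add_distrib, ← Finset.sum_mul, hsL,
            ← Finset.mul_sum, ← Finset.mul_sum] at h4
          have h5 : ∑ k, l k * z k x = Z x := by
            rw [hZ, ContinuousLinearMap.sum_apply]
            rfl
          rw [h5] at h4
          have h6 := hd1 (s * Z x)
          have h7 : |f0 x + s * Z x| ≤ 1 + s * ‖Z‖ := by
            refine (abs_add_le _ _).trans ?_
            rw [abs_mul, abs_of_pos hs]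
            have := Z.le_opNorm x
            rw [hx, mul_one] at this
            have h8 : s * |Z x| ≤ s * ‖Z‖ := mul_le_mul_of_nonneg_left this hs.le
            linarith
          have h8 : |f0 x + s * Z x| ^ p ≤ (1 + s * ‖Z‖) ^ p :=
            Real.rpow_le_rpow (abs_nonneg _) h7 hp0.le
          have h9 : CC p * s * ∑ k, l k * t k = CC p * s * Θ := rfl
          nlinarith)
      (fun o => Option.elim o ((1 - s * Λ) ^ (1 / p) • H f0)
        (fun k => (s * (l k / t k)) ^ (1 / p) • H (f0 + t k • z k)))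
      (by
        intro o
        cases o with
        | none => exact isLatHom_smul (H1 _) (Real.rpow_nonneg hw0 _)
        | some k => exact isLatHom_smul (H1 _) (Real.rpow_nonneg (hwk k) _))
      (by
        intro o x
        cases o with
        | none =>
          show (1 - s * Λ) ^ (1 / p) * H f0 (δ x) = (1 - s * Λ) ^ (1 / p) * f0 x
          rw [H2]
        | some k =>
          show (s * (l k / t k)) ^ (1 / p) * H (f0 + t k • z k) (δ x)
            = (s * (l k / t k)) ^ (1 / p) * (f0 + t k • z k) x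
          rw [H2])
      φ
    rw [Fintype.sum_option] at hsum
    have e0 : |(Option.elim none ((1 - s * Λ) ^ (1 / p) • H f0)
        (fun k => (s * (l k / t k)) ^ (1 / p) • H (f0 + t k • z k)) : L →L[ℝ] ℝ) φ| ^ p
        = (1 - s * Λ) := by
      show |(1 - s * Λ) ^ (1 / p) * H f0 φ| ^ p = _
      rw [habsp _ _ hw0, hφ1, abs_one, Real.one_rpow, mul_one]
    have e1 : ∀ k, |(Option.elim (some k) ((1 - s * Λ) ^ (1 / p) • H f0)
        (fun k => (s * (l k / t k)) ^ (1 / p) • H (f0 + t k • z k)) : L →L[ℝ] ℝ) φ| ^ p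
        = (s * (l k / t k)) * |H (f0 + t k • z k) φ| ^ p := by
      intro k
      show |(s * (l k / t k)) ^ (1 / p) * H (f0 + t k • z k) φ| ^ p = _
      exact habsp _ _ (hwk k)
    rw [e0, Finset.sum_congr rfl fun k _ => e1 k] at hsum
    have hK1 : ((1 + s * ‖Z‖) ^ p + CC p * s * Θ) * ‖φ‖ ^ p
        ≤ ((1 + s * ‖Z‖) ^ p + CC p * s * Θ) * 1 := by
      apply mul_le_mul_of_nonneg_left _ (by positivity)
      exact Real.rpow_le_one (norm_nonneg _) hφ hp0.le
    have hBs : s * p * B = ∑ k, (s * (l k / t k)) * |H (f0 + t k • z k) φ| ^ p - s * Λ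
        - CC p * s * Θ := by
      rw [hB, hΛ, hΘ, Finset.mul_sum, Finset.mul_sum, Finset.mul_sum, ← Finset.sum_sub_distrib,
        ← Finset.sum_sub_distrib]
      refine Finset.sum_congr rfl fun k _ => ?_
      have h7 := (ht0 k).ne'
      field_simp
    rw [hBs]
    linarith
  by_contra hcon
  rw [not_le] at hcon
  set C1 := p ^ 2 * 2 ^ p with hC1
  have hC10 : 0 ≤ C1 := by positivity
  set s := min (1 / (Λ + 1)) (min (1 / (2 * (‖Z‖ + 1))) (p * (B - ‖Z‖) / (2 * (C1 * ‖Z‖ ^ 2 + 1))))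
    with hs
  have hD : 0 < p * (B - ‖Z‖) := mul_pos hp0 (by linarith)
  have hs0 : 0 < s := by
    rw [hs]
    refine lt_min (by positivity) (lt_min (by positivity) (by positivity))
  have hs1 : s * Λ ≤ 1 := by
    have : s ≤ 1 / (Λ + 1) := min_le_left _ _
    rw [le_div_iff₀ (by positivity)] at this
    nlinarith
  have hs2 : s * ‖Z‖ ≤ 1 / 2 := by
    have : s ≤ 1 / (2 * (‖Z‖ + 1)) := (min_le_right _ _).trans (min_le_left _ _)
    rw [le_div_iff₀ (by positivity)] at this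
    nlinarith
  have hs3 : s * (2 * (C1 * ‖Z‖ ^ 2 + 1)) ≤ p * (B - ‖Z‖) := by
    have : s ≤ p * (B - ‖Z‖) / (2 * (C1 * ‖Z‖ ^ 2 + 1)) := (min_le_right _ _).trans (min_le_right _ _)
    rwa [le_div_iff₀ (by positivity)] at this
  have h1 := key s hs0 hs1
  have h2 := taylor_one hp (v := s * ‖Z‖) (by rw [abs_of_nonneg (by positivity)]; exact hs2)
  rw [← hC1] at h2
  have h3 : s * (p * (B - ‖Z‖)) ≤ s * (s * (C1 * ‖Z‖ ^ 2)) := by
    have : s * p * B ≤ p * (s * ‖Z‖) + C1 * (s * ‖Z‖) ^ 2 := by linarith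
    nlinarith
  have h4 : p * (B - ‖Z‖) ≤ s * (C1 * ‖Z‖ ^ 2) := le_of_mul_le_mul_left h3 hs0
  nlinarith

end Pool.Agent.R444.FBL
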